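import Pool.Agent.X216.LC.Log

open Metric

namespace Pool.Agent.Results.MP_3ad82e_an.LogCoeffBound

/-- The class `S*_ch`: `f` is analytic on the unit disc, `f 0 = 0`, `f' 0 = 1`, and
`z f'(z) / f(z)` is subordinate to `z + cosh z`, i.e. there is an analytic `ω` on the disc with
`ω 0 = 0` and `|ω| < 1` such that for `0 < |z| < 1` one has `f z ≠ 0` and
`z f'(z) / f(z) = ω z + cosh (ω z)`. -/
def InSch (f : ℂ → ℂ) : Prop :=
  DifferentiableOn ℂ f (ball (0 : ℂ) 1) ∧ f 0 = 0 ∧ deriv f 0 = 1 ∧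
    ∃ ω : ℂ → ℂ, DifferentiableOn ℂ ω (ball (0 : ℂ) 1) ∧ ω 0 = 0 ∧
      (∀ z : ℂ, ‖z‖ < 1 → ‖ω z‖ < 1) ∧
      ∀ z : ℂ, ‖z‖ < 1 → z ≠ 0 →
        f z ≠ 0 ∧ z * deriv f z / f z = ω z + Complex.cosh (ω z)

/-- `γ 1, γ 2, …` are the logarithmic coefficients of `f`: the series
`2 * ∑_{n ≥ 1} γ n * z ^ n` converges on the unit disc to a function `L` (so `L 0 = 0`) which is
a logarithm of `f z / z`. -/
def IsLogCoeff (f : ℂ → ℂ) (γ : ℕ → ℂ) : Prop :=
  ∃ L : ℂ → ℂ,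
    (∀ z : ℂ, ‖z‖ < 1 → HasSum (fun n : ℕ => 2 * γ (n + 1) * z ^ (n + 1)) (L z)) ∧
    ∀ z : ℂ, ‖z‖ < 1 → z ≠ 0 → Complex.exp (L z) = f z / z

/-- Every `f` in the class has logarithmic coefficients, and they satisfy
`|γ n| ≤ 1 / (2 n)` for every `n ≥ 1`. -/
theorem result : ∀ f : ℂ → ℂ, InSch f →
    (∃ γ : ℕ → ℂ, IsLogCoeff f γ) ∧
      ∀ γ : ℕ → ℂ, IsLogCoeff f γ → ∀ n : ℕ, 1 ≤ n → ‖γ n‖ ≤ 1 / (2 * (n : ℝ)) := by
  intro f hf
  obtain ⟨hfd, hf0, hf1, ω, hωd, hω0, hω1, hfω⟩ := hf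
  constructor
  · obtain ⟨l, L, hL, hl0, hfL⟩ :=
      Pool.Agent.X216.LC.exists_log hfd hf0 hf1 hωd hω0 hfω
    refine ⟨fun n => l n / 2, L, ?_, ?_⟩
    · intro z hz
      have h1 := (hasSum_nat_add_iff' 1).mpr (hL z hz)
      simp only [Finset.sum_range_one, hl0, zero_mul, sub_zero] at h1
      refine h1.congr_fun ?_
      intro n
      ring
    · intro z hz hz0
      rw [hfL z hz]
      field_simp
  · rintro γ ⟨L, hL, hexp⟩ n hn
    obtain ⟨l, hl⟩ : ∃ l : ℕ → ℂ, l = fun k : ℕ => if k = 0 then 0 else 2 * γ k := ⟨_, rfl⟩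
    have hLl : Pool.Agent.X216.BH.IsPS l L := by
      intro z hz
      rw [← hasSum_nat_add_iff' 1]
      have h0 : l 0 = 0 := by rw [hl]; simp
      simp only [Finset.sum_range_one, h0, zero_mul, sub_zero]
      refine (hL z hz).congr_fun ?_
      intro k
      rw [hl]
      simp
    have hfL : ∀ z : ℂ, ‖z‖ < 1 → f z = z * Complex.exp (L z) := by
      intro z hz
      by_cases hz0 : z = 0
      · subst hz0
        rw [hf0, zero_mul]
      · rw [hexp z hz hz0]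
        field_simp
    have hb := Pool.Agent.X216.LC.log_bound hωd hω0 hω1 hfω hLl hfL hn
    have hn0 : n ≠ 0 := by omega
    have hln : l n = 2 * γ n := by rw [hl]; simp [hn0]
    rw [hln, norm_mul, norm_mul, Complex.norm_natCast, show ‖(2 : ℂ)‖ = 2 by simp] at hb
    have hn' : (0 : ℝ) < n := by exact_mod_cast hn
    rw [le_div_iff₀ (by positivity)]
    linarith

end Pool.Agent.Results.MP_3ad82e_an.LogCoeffBound
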